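import Pool.Agent.X194.Seq
import Pool.Agent.X194.WM.Digits

/-!
# MP_a8308c_an: a weakly mixing system with a transitive point without a transitive partner

The system is the orbit closure of the indicator function `x` of a sparse set `P` of natural numbers
given by digits.
-/

namespace Pool.Agent.Results.MP_a8308c_an.NoTransitivePartner

open Set Topology Filter Pool.Agent.X194.WM Pool.Agent.X194.Seq

open Classical in
/-- the indicator function of `P` -/
noncomputable def xi (i : ℕ) : Bool := decide (i ∈ P)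

lemma xi_iff {i : ℕ} : xi i = true ↔ i ∈ P := by unfold xi; simp

lemma xi_eq {i j : ℕ} (h : i ∈ P ↔ j ∈ P) : xi i = xi j := by
  unfold xi; simp [h]

/-- the orbit closure -/
def SS : Set (ℕ → Bool) := {z | ∀ L, ∃ n, ∀ i < L, z i = xi (n + i)}

lemma isClosed_SS : IsClosed SS := by
  rw [← isOpen_compl_iff, isOpen_iff_mem_nhds]
  intro z hz
  obtain ⟨L, hL⟩ := not_forall.1 hz
  refine mem_of_superset ((isOpen_Cyl L z).mem_nhds fun _ _ => rfl) ?_
  intro w hw hcon
  obtain ⟨n, hn⟩ := hcon L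
  exact hL ⟨n, fun i hi => by rw [← hw i hi]; exact hn i hi⟩

lemma shift_SS : ∀ z ∈ SS, (fun n => z (n + 1)) ∈ SS := by
  intro z hz L
  obtain ⟨n, hn⟩ := hz (L + 1)
  refine ⟨n + 1, fun i hi => ?_⟩
  show z (i + 1) = _
  rw [hn (i + 1) (by omega), show n + (i + 1) = n + 1 + i by ring]

/-- the space -/
abbrev X : Type := SS

instance : CompactSpace X := isCompact_iff_compactSpace.1 isClosed_SS.isCompact

/-- the shift -/
def T : X → X := sh shift_SS

lemma T_iter (k : ℕ) (z : X) (i : ℕ) : (T^[k] z).1 i = z.1 (i + k) := sh_iter shift_SS k z i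

lemma continuous_T : Continuous T := continuous_sh shift_SS

/-- the special point -/
noncomputable def x : X := ⟨xi, fun _ => ⟨0, fun i _ => by rw [zero_add]⟩⟩

lemma x_iter (n i : ℕ) : (T^[n] x).1 i = xi (n + i) := by
  rw [T_iter, add_comm]; rfl

lemma dense_x : Dense (range fun n => T^[n] x) := by
  rw [dense_iff_inter_open]
  rintro W hW ⟨z, hz⟩
  obtain ⟨L, hL⟩ := exists_N hW hz
  obtain ⟨n, hn⟩ := z.2 L
  exact ⟨T^[n] x, hL _ fun i hi => by rw [x_iter, hn i hi], n, rfl⟩

/-- copies of the first block -/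
lemma xi_copy {k r i : ℕ} (hr : r ∈ R k) (hi : i < 2 * N k) : xi (r + i) = xi i :=
  xi_eq (copy hr hi)

lemma surjective_T : Function.Surjective T := by
  have hcl : IsClosed (range T) := (isCompact_range continuous_T).isClosed
  have hd : Dense (range T) := by
    rw [dense_iff_inter_open]
    rintro W hW ⟨z, hz⟩
    obtain ⟨L, hL⟩ := exists_N hW hz
    obtain ⟨n, hn⟩ := z.2 L
    -- a later occurrence
    obtain ⟨m, hm⟩ : ∃ m, ∀ i < L, z.1 i = xi (m + 1 + i) := by
      set k := n + L with hk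
      have hkN := lt_N k
      have hc : s (N k) 0 ∈ C (N k) := Or.inr ⟨0, by omega, Or.inl rfl⟩
      have hc0 : 100 * N k ≤ s (N k) 0 := s_ge _ _
      refine ⟨s (N k) 0 + n - 1, fun i hi => ?_⟩
      rw [hn i hi, show s (N k) 0 + n - 1 + 1 + i = s (N k) 0 + (n + i) by omega,
        xi_copy (C_sub_R hc) (by omega)]
    exact ⟨T (T^[m] x), hL _ fun i hi => by
      rw [← Function.iterate_succ_apply' T m x, x_iter, hm i hi], mem_range_self _⟩
  intro z
  have h1 : range T = univ := by rw [← hcl.closure_eq]; exact hd.closure_eq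
  have h2 : z ∈ range T := by rw [h1]; trivial
  exact h2

/-- the square is transitive: the version with open sets -/
lemma transitive {W W' : Set (X × X)} (hW : IsOpen W) (hW' : IsOpen W') (hne : W.Nonempty)
    (hne' : W'.Nonempty) : ∃ n, ∃ p ∈ W, (Prod.map T T)^[n] p ∈ W' := by
  obtain ⟨⟨a, b⟩, hab⟩ := hne
  obtain ⟨⟨a', b'⟩, hab'⟩ := hne'
  obtain ⟨L₁, hL₁⟩ := exists_N_prod hW hab
  obtain ⟨L₂, hL₂⟩ := exists_N_prod hW' hab'
  obtain ⟨i₁, h₁⟩ := a.2 L₁
  obtain ⟨i₃, h₃⟩ := b.2 L₁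
  obtain ⟨i₂, h₂⟩ := a'.2 L₂
  obtain ⟨i₄, h₄⟩ := b'.2 L₂
  set k := i₁ + i₂ + i₃ + i₄ + L₁ + L₂ with hk
  have hkN := lt_N k
  set t := i₁ + i₄ with ht
  set t' := i₂ + i₃ with ht'
  have c1 : s (N k) t ∈ R k := C_sub_R (Or.inr ⟨t, by omega, Or.inl rfl⟩)
  have c2 : s (N k) t + (10 * N k + t) ∈ R k := C_sub_R (Or.inr ⟨t, by omega, Or.inr rfl⟩)
  have c3 : s (N k) t' ∈ R k := C_sub_R (Or.inr ⟨t', by omega, Or.inl rfl⟩)
  have c4 : s (N k) t' + (10 * N k + t') ∈ R k := C_sub_R (Or.inr ⟨t', by omega, Or.inr rfl⟩)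
  have hit : ∀ (n : ℕ) (p : X × X), (Prod.map T T)^[n] p = (T^[n] p.1, T^[n] p.2) := by
    intro n p
    rw [Prod.map_iterate]
    rfl
  refine ⟨10 * N k + i₂ + i₄, (T^[s (N k) t + i₁] x, T^[s (N k) t' + i₃] x),
    hL₁ _ _ (fun i hi => ?_) (fun i hi => ?_), ?_⟩
  · rw [x_iter, add_assoc, xi_copy c1 (by omega), h₁ i hi]
  · rw [x_iter, add_assoc, xi_copy c3 (by omega), h₃ i hi]
  · rw [hit]
    refine hL₂ _ _ (fun i hi => ?_) (fun i hi => ?_)
    · show (T^[10 * N k + i₂ + i₄] (T^[s (N k) t + i₁] x)).1 i = _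
      rw [← Function.iterate_add_apply, x_iter,
        show 10 * N k + i₂ + i₄ + (s (N k) t + i₁) + i =
          s (N k) t + (10 * N k + t) + (i₂ + i) by omega, xi_copy c2 (by omega), h₂ i hi]
    · show (T^[10 * N k + i₂ + i₄] (T^[s (N k) t' + i₃] x)).1 i = _
      rw [← Function.iterate_add_apply, x_iter,
        show 10 * N k + i₂ + i₄ + (s (N k) t' + i₃) + i =
          s (N k) t' + (10 * N k + t') + (i₄ + i) by omega, xi_copy c4 (by omega), h₄ i hi]

/-- the square has a transitive point -/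
lemma weaklyMixing : ∃ p : X × X, Dense (range fun n => (Prod.map T T)^[n] p) := by
  let B := TopologicalSpace.countableBasis (X × X)
  have hcT : Continuous (Prod.map T T) := continuous_T.prodMap continuous_T
  have h1 : Dense (⋂ b ∈ B, ⋃ n, ((Prod.map T T)^[n]) ⁻¹' b) := by
    refine dense_biInter_of_isOpen (fun b hb => ?_) (TopologicalSpace.countable_countableBasis _)
      (fun b hb => ?_)
    · exact isOpen_iUnion fun n =>
        (TopologicalSpace.isOpen_of_mem_countableBasis hb).preimage (hcT.iterate n)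
    · rw [dense_iff_inter_open]
      intro W hW hne
      obtain ⟨n, p, hp, hp'⟩ := transitive hW (TopologicalSpace.isOpen_of_mem_countableBasis hb) hne
        (TopologicalSpace.nonempty_of_mem_countableBasis hb)
      exact ⟨p, hp, mem_iUnion.2 ⟨n, hp'⟩⟩
  have hX : Nonempty (X × X) := ⟨(x, x)⟩
  obtain ⟨p, hp⟩ := h1.nonempty
  refine ⟨p, ?_⟩
  rw [(TopologicalSpace.isBasis_countableBasis (X × X)).dense_iff]
  intro b hb hne
  rw [mem_iInter₂] at hp
  obtain ⟨n, hn⟩ := mem_iUnion.1 (hp b hb)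
  exact ⟨_, hn, n, rfl⟩

/-- the first nonzero element of `P` -/
lemma hundred_mem : 100 ∈ P := by
  have h : s (N 0) 0 ∈ C (N 0) := Or.inr ⟨0, by omega, Or.inl rfl⟩
  have h1 : s (N 0) 0 = 100 := rfl
  rw [h1] at h
  exact mem_iUnion.2 ⟨1, 0, rfl, 100, h, rfl⟩

lemma exists_p : ∃ p ∈ P, p + 100 ∉ P := by
  by_contra hcon
  push Not at hcon
  have h1 : ∀ i, 100 * i ∈ P := by
    intro i
    induction i with
    | zero => exact mem_iUnion.2 ⟨0, rfl⟩
    | succ i ih =>
      have := hcon _ ih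
      rwa [show 100 * i + 100 = 100 * (i + 1) by ring] at this
  have h2 := lt_N 100
  have h3 := h1 (N 100 / 100 + 1)
  have h4 := PP_lt (P_small (j := 100) h3 (by omega))
  omega

lemma no_partner (y : X) : ¬ Dense (range fun n => (Prod.map T T)^[n] (x, y)) := by
  intro hd
  have hit : ∀ (n : ℕ) (p : X × X), (Prod.map T T)^[n] p = (T^[n] p.1, T^[n] p.2) := by
    intro n p
    rw [Prod.map_iterate]
    rfl
  have x0 : x.1 0 = true := xi_iff.2 (mem_iUnion.2 ⟨0, rfl⟩)
  by_cases hy : ∃ π, y.1 π = true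
  · obtain ⟨π, hπ⟩ := hy
    set k := π + 100 with hk
    have hkN := lt_N k
    have hU : IsOpen {z : X | ∀ i < N k, z.1 i = xi i} := by
      have : {z : X | ∀ i < N k, z.1 i = xi i} = Subtype.val ⁻¹' (Cyl (N k) xi) := rfl
      rw [this]
      exact (isOpen_Cyl _ _).preimage continuous_subtype_val
    have hV : IsOpen {z : X | z.1 0 = true ∧ (y.1 0 = true → z.1 100 ≠ y.1 100)} := by
      have h1 : IsOpen {z : X | z.1 0 = true} := isOpen_coord 0 {true}
      have h2 : IsOpen {z : X | z.1 100 ≠ y.1 100} := isOpen_coord 100 {y.1 100}ᶜ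
      by_cases h0 : y.1 0 = true
      · have : {z : X | z.1 0 = true ∧ (y.1 0 = true → z.1 100 ≠ y.1 100)} =
            {z : X | z.1 0 = true} ∩ {z : X | z.1 100 ≠ y.1 100} := by
          ext z; exact ⟨fun h => ⟨h.1, h.2 h0⟩, fun h => ⟨h.1, fun _ => h.2⟩⟩
        rw [this]; exact h1.inter h2
      · have : {z : X | z.1 0 = true ∧ (y.1 0 = true → z.1 100 ≠ y.1 100)} =
            {z : X | z.1 0 = true} := by
          ext z; exact ⟨fun h => h.1, fun h => ⟨h, fun h' => absurd h' h0⟩⟩
        rw [this]; exact h1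
    have hne : ({z : X | ∀ i < N k, z.1 i = xi i} ×ˢ
        {z : X | z.1 0 = true ∧ (y.1 0 = true → z.1 100 ≠ y.1 100)}).Nonempty := by
      by_cases h0 : y.1 0 = true ∧ y.1 100 = true
      · obtain ⟨p, hp, hp'⟩ := exists_p
        refine ⟨(x, T^[p] x), fun _ _ => rfl, ?_, fun _ => ?_⟩
        · show (T^[p] x).1 0 = true
          rw [x_iter, xi_iff, add_zero]; exact hp
        · show (T^[p] x).1 100 ≠ _
          rw [x_iter, h0.2, Ne, xi_iff]; exact hp'
      · refine ⟨(x, x), fun _ _ => rfl, x0, fun h1 h2 => h0 ⟨h1, ?_⟩⟩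
        have : x.1 100 = true := xi_iff.2 hundred_mem
        rw [← this]; exact h2.symm
    obtain ⟨_, ⟨hz1, hz2, hz3⟩, n, rfl⟩ := hd.inter_open_nonempty _ (hU.prod hV) hne
    simp only [hit] at hz1 hz2 hz3
    have hn : n ∈ R k := occ fun i hi => by
      have h1 : (T^[n] x).1 i = xi i := hz1 i hi
      rw [x_iter] at h1
      rw [← xi_iff, ← xi_iff, h1]
    rw [T_iter, zero_add] at hz2
    rw [T_iter] at hz3
    have hco := coincidence (y := fun i => y.1 i = true) (fun L => by
      obtain ⟨m, hm⟩ := y.2 L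
      exact ⟨m, fun i hi => by rw [hm i hi, xi_iff]⟩) (show π < N k by omega) hπ hn hz2
    have h0 : y.1 0 = true := by
      have := (hco 0 (by omega)).1
      rw [add_zero] at this
      exact this hz2
    apply hz3 h0
    have h100 := hco 100 (by omega)
    rw [add_comm]
    rw [Bool.eq_iff_iff]
    exact h100
  · push Not at hy
    have hV : IsOpen {z : X | z.1 0 = true} := isOpen_coord 0 {true}
    obtain ⟨_, ⟨-, hz⟩, n, rfl⟩ := hd.inter_open_nonempty _ (isOpen_univ.prod hV)
      ⟨(x, x), trivial, x0⟩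
    simp only [hit] at hz
    have hz' : (T^[n] y).1 0 = true := hz
    rw [T_iter] at hz'
    exact hy _ hz'

/-- There are a weakly mixing system `(X, T)` and a transitive point `x` such that `(x, y)` is not
a transitive point of `T × T` for any `y`. -/
theorem result : ∃ (X : Type) (_ : TopologicalSpace X) (_ : CompactSpace X)
    (_ : TopologicalSpace.MetrizableSpace X) (T : X → X), Continuous T ∧ Function.Surjective T ∧
    (∃ p : X × X, Dense (range fun n : ℕ => (Prod.map T T)^[n] p)) ∧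
    ∃ x : X, Dense (range fun n : ℕ => T^[n] x) ∧
      ∀ y : X, ¬ Dense (range fun n : ℕ => (Prod.map T T)^[n] (x, y)) :=
  ⟨X, inferInstance, inferInstance, inferInstance, T, continuous_T, surjective_T, weaklyMixing,
    x, dense_x, no_partner⟩

end Pool.Agent.Results.MP_a8308c_an.NoTransitivePartner
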